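import Mathlib
import Pool.Agent.Hhelper8.Interface

/-!
MP_10183c_al, Part D, first half: the table algebra embeds in C7; multidegrees.
-/

namespace Pool.Agent.Hhelper82.PartD
open Pool.Agent.Hhelper8

universe u v w

section lift
variable {F : Type u} [Field F] {X : Type v} {B : Type w} [NonUnitalNonAssocRing B] [Module F B]

/-- value of a nonassociative polynomial in an algebra -/
noncomputable abbrev ev (p : FreeMagma X →₀ F) (v : X → B) : B :=
  evP F (fun p q : B => p * q) p v

variable [IsScalarTower F B B] [SMulCommClass F B B]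

theorem freeMagma_lift_eq (v : X → B) (w : FreeMagma X) :
    FreeMagma.lift v w = evW (fun p q : B => p * q) v w := by
  induction w with
  | ih1 x => simp [evW]
  | ih2 a b iha ihb =>
    rw [map_mul, iha, ihb]; rfl

theorem lift_eq (v : X → B) (p : FreeNonUnitalNonAssocAlgebra F X) :
    FreeNonUnitalNonAssocAlgebra.lift F v p = ev p.coeff v := by
  rw [FreeNonUnitalNonAssocAlgebra.lift]
  simp only [Equiv.trans_apply, MonoidAlgebra.liftMagma_apply_apply, freeMagma_lift_eq, ev, evP]
  rfl

omit [IsScalarTower F B B] [SMulCommClass F B B] in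
theorem ev_def (p : FreeMagma X →₀ F) (v : X → B) :
    ev p v = p.sum fun w c => c • evW (fun p q : B => p * q) v w := rfl

end lift

/-! ### the multidegree -/

/-- the multidegree of a word -/
noncomputable def cntF {X : Type v} : FreeMagma X → X →₀ ℕ
  | .of j => Finsupp.single j 1
  | .mul a b => cntF a + cntF b

theorem cnt_eq {X : Type v} [DecidableEq X] (i : X) (w : FreeMagma X) : cnt i w = cntF w i := by
  induction w with
  | ih1 x => 
    show (if x = i then 1 else 0) = (Finsupp.single x 1 : X →₀ ℕ) i
    rw [Finsupp.single_apply]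
  | ih2 a b iha ihb =>
    show cnt i a + cnt i b = (cntF a + cntF b) i
    rw [iha, ihb]; rfl

theorem evW_comm {X : Type v} {R : Type u} [CommSemiring R] (t : X → R) (w : FreeMagma X) :
    evW (fun a b => a * b) t w = (cntF w).prod fun i e => t i ^ e := by
  induction w with
  | ih1 x => 
    show t x = (Finsupp.single x 1 : X →₀ ℕ).prod _
    simp
  | ih2 a b iha ihb =>
    show evW (fun a b => a * b) t a * evW (fun a b => a * b) t b = (cntF a + cntF b).prod _
    rw [iha, ihb, Finsupp.prod_add_index']
    · simp
    · intro i; exact pow_add _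

section poly
variable {F : Type u} [Field F] {X : Type v} {B : Type w} [NonUnitalNonAssocRing B] [Module F B]
variable [IsScalarTower F B B] [SMulCommClass F B B]

theorem evW_smul (t : X → F) (v : X → B) (w : FreeMagma X) :
    evW (fun a b : B => a * b) (fun i => t i • v i) w
      = (evW (fun a b : F => a * b) t w) • evW (fun a b : B => a * b) v w := by
  induction w with
  | ih1 x => rfl
  | ih2 a b iha ihb =>
    show evW _ _ a * evW _ _ b = (evW _ t a * evW _ t b) • (evW _ v a * evW _ v b)
    rw [iha, ihb, smul_mul_smul_comm]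

/-- the generating polynomial -/
noncomputable def Gp (l : B →ₗ[F] F) (P : FreeMagma X →₀ F) (v : X → B) : MvPolynomial X F :=
  P.sum fun w c => MvPolynomial.monomial (cntF w) (c * l (evW (fun a b : B => a * b) v w))

omit [IsScalarTower F B B] [SMulCommClass F B B] in
theorem Gp_coeff (l : B →ₗ[F] F) (P : FreeMagma X →₀ F) (v : X → B) (d : X →₀ ℕ)
    [DecidablePred fun w : FreeMagma X => cntF w = d] :
    (Gp l P v).coeff d = l (ev (P.filter fun w => cntF w = d) v) := by
  classical
  rw [Gp, Finsupp.sum, MvPolynomial.coeff_sum, ev_def, Finsupp.sum, map_sum, Finsupp.support_filter,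
    Finset.sum_filter]
  refine Finset.sum_congr rfl fun w _ => ?_
  rw [MvPolynomial.coeff_monomial]
  split_ifs with h
  · rw [Finsupp.filter_apply_pos (fun w => cntF w = d) _ h, map_smul, smul_eq_mul]
  · rfl

theorem Gp_eval (l : B →ₗ[F] F) (P : FreeMagma X →₀ F) (v : X → B) (t : X → F) :
    MvPolynomial.eval t (Gp l P v) = l (ev P fun i => t i • v i) := by
  rw [Gp, Finsupp.sum, map_sum, ev_def, Finsupp.sum, map_sum]
  refine Finset.sum_congr rfl fun w _ => ?_
  rw [MvPolynomial.eval_monomial, evW_smul, evW_comm, map_smul, map_smul, smul_eq_mul, smul_eq_mul]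
  ring

end poly

/-! ### the table algebra -/

/-- the table algebra -/
def TA (F : Type u) : Type u := Fin 7 → F

section TA
variable {F : Type u} [Field F]

instance : AddCommGroup (TA F) := inferInstanceAs (AddCommGroup (Fin 7 → F))
noncomputable instance : Module F (TA F) := inferInstanceAs (Module F (Fin 7 → F))

instance : NonUnitalNonAssocRing (TA F) where
  mul x y := tab (-4 : F) (-4) (-4) x y
  left_distrib a b c := by
    show tab (-4 : F) (-4) (-4) a (fun i => b i + c i) =
      fun i => tab (-4 : F) (-4) (-4) a b i + tab (-4 : F) (-4) (-4) a c i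
    funext i
    fin_cases i <;> simp [tab] <;> ring
  right_distrib a b c := by
    show tab (-4 : F) (-4) (-4) (fun i => a i + b i) c =
      fun i => tab (-4 : F) (-4) (-4) a c i + tab (-4 : F) (-4) (-4) b c i
    funext i
    fin_cases i <;> simp [tab] <;> ring
  zero_mul a := by
    show tab (-4 : F) (-4) (-4) (fun _ => 0) a = fun _ => 0
    funext i
    fin_cases i <;> simp [tab]
  mul_zero a := by
    show tab (-4 : F) (-4) (-4) a (fun _ => 0) = fun _ => 0
    funext i
    fin_cases i <;> simp [tab]

theorem TA_mul (x y : TA F) : x * y = tab (-4 : F) (-4) (-4) x y := rfl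

instance : IsScalarTower F (TA F) (TA F) where
  smul_assoc t x y := by
    show tab (-4 : F) (-4) (-4) (fun i => t * x i) y = fun i => t * tab (-4 : F) (-4) (-4) x y i
    funext i
    fin_cases i <;> simp [tab] <;> ring

instance : SMulCommClass F (TA F) (TA F) where
  smul_comm t x y := by
    show (fun i => t * tab (-4 : F) (-4) (-4) x y i) = tab (-4 : F) (-4) (-4) x (fun i => t * y i)
    funext i
    fin_cases i <;> simp [tab] <;> ring

theorem TA_smul_apply (t : F) (x : TA F) (i : Fin 7) : (t • x) i = t * x i := rfl
theorem TA_add_apply (x y : TA F) (i : Fin 7) : (x + y) i = x i + y i := rfl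

/-- the form of the table algebra -/
def tf (x y : TA F) : F := tabForm (-4 : F) (-4) (-4) x y

theorem TA_self (x : TA F) : x * x = 0 := tab_self _ _ _ x

theorem TA_anti (x y : TA F) : x * y = -(y * x) := by
  have h := TA_self (x + y)
  rw [add_mul, mul_add, mul_add, TA_self, TA_self, zero_add, add_zero] at h
  exact eq_neg_of_add_eq_zero_left h

theorem TA_vp (x y z : TA F) : (z * x) * y + z * (x * y) + tf x y • z
      = (2 : F) • tf z y • x - tf z x • y := tab_vp _ _ _ x y z

theorem TA_inv (x y z : TA F) : tf (x * y) z = tf x (y * z) := tab_inv _ _ _ x y z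

theorem tf_symm (x y : TA F) : tf x y = tf y x := by
  simp [tf, tabForm]; ring

theorem tf_smul (t : F) (x y : TA F) : tf (t • x) y = t * tf x y := by
  simp only [tf, tabForm, TA_smul_apply]; ring

theorem tf_neg (x y : TA F) : tf (-x) y = - tf x y := by
  have := tf_smul (-1) x y
  simpa using this

theorem tf_zero (x : TA F) : tf x 0 = 0 := by
  rw [tf_symm]
  simpa using tf_smul (0 : F) 0 x

theorem TA_J (x y z : TA F) : J x y z = (3 : F) • ((x * y) * z + tf y z • x - tf z x • y) := by
  have h1 := TA_vp x y z
  have h2 := TA_vp y z x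
  have e1 : z * (x * y) = -((x * y) * z) := TA_anti _ _
  have e2 : x * (y * z) = -((y * z) * x) := TA_anti _ _
  rw [e1] at h1
  rw [e2] at h2
  have s1 : tf x y = tf y x := tf_symm _ _
  have s2 : tf z y = tf y z := tf_symm _ _
  have s3 : tf x z = tf z x := tf_symm _ _
  rw [s2, s1] at h1
  rw [s3, s1] at h2
  have k1 : z * x * y = (2 : F) • tf y z • x - tf z x • y - tf y x • z + x * y * z := by
    rw [← h1]; abel
  have k2 : y * z * x = x * y * z + tf y z • x + tf y x • z - (2 : F) • tf z x • y := by
    have : (2 : F) • tf z x • y - tf y x • z = x * y * z - y * z * x + tf y z • x := by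
      rw [← h2]; abel
    have e : y * z * x = x * y * z + tf y z • x - (x * y * z - y * z * x + tf y z • x) := by abel
    rw [e, ← this]; abel
  unfold J
  rw [k1, k2]
  module

theorem TA_isMalcev : IsMalcev (TA F) where
  mul_self := TA_self
  malcev x y z := by
    rw [TA_J, TA_J]
    have h2 := TA_vp z x (x * y)
    have a1 : tf (x * y) x = 0 := by
      rw [TA_anti x y, tf_neg, TA_inv, TA_self, tf_zero, neg_zero]
    have a2 : tf (x * z) x = 0 := by
      rw [TA_anti x z, tf_neg, TA_inv, TA_self, tf_zero, neg_zero]
    have a3 : tf y (x * z) = - tf (x * y) z := by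
      rw [← TA_inv, TA_anti y x, tf_neg]
    have a4 : tf z x = tf x z := tf_symm _ _
    have a5 : z * x = -(x * z) := TA_anti _ _
    have a6 : y * x = -(x * y) := TA_anti _ _
    rw [a1, a5, a4] at h2
    rw [a2, a3, a4]
    rw [smul_mul_assoc, sub_mul, add_mul, smul_mul_assoc, smul_mul_assoc, TA_self, a6]
    congr 1
    rw [mul_neg] at h2
    linear_combination (norm := skip) (-1 : F) • h2
    module

end TA

/-! ### the embedding into C7 -/

section tau
variable {F : Type u} [Field F]

/-- the embedding of the table algebra in the octonions -/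
def tau0 (x : TA F) : Oct F :=
  (!![x 0, x 1 + 2 * x 2; x 1 - 2 * x 2, -x 0],
   !![x 3 + 2 * x 4, 2 * x 5 + 4 * x 6; 2 * x 5 - 4 * x 6, x 3 - 2 * x 4])

theorem tau0_mul (x y : TA F) :
    tau0 (x * y) = omul (tau0 x) (tau0 y) - omul (tau0 y) (tau0 x) := by
  rw [TA_mul]
  ext i j <;> fin_cases i <;> fin_cases j <;>
    simp [tau0, omul, tab, Matrix.adjugate_fin_two] <;> ring

/-- the embedding of the table algebra in `C7` -/
def tau : TA F →ₗ[F] C7 F where
  toFun x := ⟨tau0 x, by simp [C7, otrace, tau0, Matrix.trace_fin_two]⟩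
  map_add' x y := by
    apply Subtype.ext
    show tau0 (x + y) = tau0 x + tau0 y
    ext i j <;> fin_cases i <;> fin_cases j <;> simp [tau0, TA_add_apply] <;> ring
  map_smul' t x := by
    apply Subtype.ext
    show tau0 (t • x) = t • tau0 x
    ext i j <;> fin_cases i <;> fin_cases j <;> simp [tau0, TA_smul_apply] <;> ring

theorem tau_mul (x y : TA F) :
    (tau (x * y) : Oct F) = omul (tau x) (tau y) - omul (tau y) (tau x) := tau0_mul x y

theorem tau_inj [CharZero F] (x : TA F) (h : tau x = 0) : x = 0 := by
  have h0 : tau0 x = 0 := congrArg Subtype.val h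
  have h1 := congrArg Prod.fst h0
  have h2 := congrArg Prod.snd h0
  have e00 := congrFun (congrFun h1 0) 0
  have e01 := congrFun (congrFun h1 0) 1
  have e10 := congrFun (congrFun h1 1) 0
  have f00 := congrFun (congrFun h2 0) 0
  have f01 := congrFun (congrFun h2 0) 1
  have f10 := congrFun (congrFun h2 1) 0
  have f11 := congrFun (congrFun h2 1) 1
  simp [tau0] at e00 e01 e10 f00 f01 f10 f11
  have two : (2 : F) ≠ 0 := two_ne_zero
  have a1 : x 1 = 0 := by
    have : (2 : F) * x 1 = 0 := by linear_combination e01 + e10
    simpa using this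
  have a2 : x 2 = 0 := by
    have : (4 : F) * x 2 = 0 := by linear_combination e01 - e10
    simpa using this
  have a3 : x 3 = 0 := by
    have : (2 : F) * x 3 = 0 := by linear_combination f00 + f11
    simpa using this
  have a4 : x 4 = 0 := by
    have : (4 : F) * x 4 = 0 := by linear_combination f00 - f11
    simpa using this
  have a5 : x 5 = 0 := by
    have : (4 : F) * x 5 = 0 := by linear_combination f01 + f10
    simpa using this
  have a6 : x 6 = 0 := by
    have : (8 : F) * x 6 = 0 := by linear_combination f01 - f10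
    simpa using this
  funext i
  fin_cases i
  exacts [e00, a1, a2, a3, a4, a5, a6]

/-- an element of `T(C7)` is an identity of the table algebra -/
theorem T7_ta [CharZero F] {X : Type v} (p : FreeNonUnitalNonAssocAlgebra F X)
    (h : QAlg.mk F (MalcevRel F X) p ∈ T7 F X) (v : X → TA F) : ev p.coeff v = 0 := by
  rw [← lift_eq]
  let φ : FreeMalcev F X →ₙₐ[F] TA F := FreeMalcev.lift TA_isMalcev v
  have e : φ (QAlg.mk F (MalcevRel F X) p) = FreeNonUnitalNonAssocAlgebra.lift F v p := rfl
  rw [← e]
  apply tau_inj
  exact h (tau.comp (φ : FreeMalcev F X →ₗ[F] TA F)) (fun a b => by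
    show (tau (φ (a * b)) : Oct F) = _
    rw [map_mul, tau_mul]; rfl)

end tau

end Pool.Agent.Hhelper82.PartD
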