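import Mathlib
import Pool.Agent.Hhelper82.PartD1

/-!
MP_10183c_al, Part D, second half: polarisation and the proof of the main theorem from
Parts A and B.
-/

namespace Pool.Agent.Hhelper82.PartD
open Pool.Agent.Hhelper8

universe u v w

/-! ### polarisation -/

section pol
variable {F : Type u} [Field F]

/-- the multihomogeneous components of an identity of the table algebra are identities -/
theorem comp_identity [CharZero F] {X : Type v} (P : FreeMagma X →₀ F)
    (hP : ∀ v : X → TA F, ev P v = 0) (d : X →₀ ℕ)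
    [DecidablePred fun w : FreeMagma X => cntF w = d] (v : X → TA F) :
    ev (P.filter fun w => cntF w = d) v = 0 := by
  funext i
  let l : TA F →ₗ[F] F := LinearMap.proj (R := F) (φ := fun _ : Fin 7 => F) i
  have h0 : Gp l P v = 0 := by
    apply MvPolynomial.funext
    intro t
    rw [Gp_eval, hP, map_zero, map_zero]
  have := Gp_coeff l P v d
  rw [h0, MvPolynomial.coeff_zero] at this
  exact this.symm

theorem exists_letters {X : Type v} (w : FreeMagma X) : ∃ n : ℕ, ∃ κ : Fin n → X,
    ∀ t : X → F, evW (fun a b : F => a * b) t w = ∏ j, t (κ j) := by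
  induction w with
  | ih1 x => exact ⟨1, fun _ => x, fun t => by simp [evW]⟩
  | ih2 a b iha ihb =>
    obtain ⟨n, κ, h⟩ := iha
    obtain ⟨m, κ', h'⟩ := ihb
    refine ⟨n + m, Fin.append κ κ', fun t => ?_⟩
    show evW _ t a * evW _ t b = _
    rw [h, h', Fin.prod_univ_add]
    simp

theorem prod_add_ex {R ι : Type*} [CommSemiring R] (s : Finset ι) (a b : ι → R) :
    ∃ r, ∏ i ∈ s, (a i + b i) = ∏ i ∈ s, a i + r := by
  classical
  induction s using Finset.induction_on with
  | empty => exact ⟨0, by simp⟩
  | insert i s hi ih =>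
    obtain ⟨r, hr⟩ := ih
    refine ⟨b i * ∏ i ∈ s, a i + (a i + b i) * r, ?_⟩
    rw [Finset.prod_insert hi, Finset.prod_insert hi, hr]
    ring

/-- the exponent (1,...,1) -/
noncomputable def ones (n : ℕ) : Fin n →₀ ℕ := Finsupp.equivFunOnFinite.symm fun _ => 1

theorem coeff_prod_X (n : ℕ) :
    (∏ j : Fin n, (MvPolynomial.X j : MvPolynomial (Fin n) ℕ)).coeff (ones n) = 1 := by
  have : (∏ j : Fin n, (MvPolynomial.X j : MvPolynomial (Fin n) ℕ))
      = MvPolynomial.monomial (ones n) 1 := by
    rw [MvPolynomial.monomial_eq, Finsupp.prod_fintype]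
    · simp [ones]
    · simp
  rw [this, MvPolynomial.coeff_monomial, if_pos rfl]

theorem coeff_ne [CharZero F] {X : Type v} [DecidableEq X] (n : ℕ) (κ : Fin n → X) :
    (∏ j : Fin n, ∑ i with κ i = κ j, (MvPolynomial.X i : MvPolynomial (Fin n) F)).coeff (ones n)
      ≠ 0 := by
  have e : (∏ j : Fin n, ∑ i with κ i = κ j, (MvPolynomial.X i : MvPolynomial (Fin n) F))
      = MvPolynomial.map (Nat.castRingHom F)
        (∏ j : Fin n, ∑ i with κ i = κ j, (MvPolynomial.X i : MvPolynomial (Fin n) ℕ)) := by
    simp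
  rw [e, MvPolynomial.coeff_map]
  have k : ∃ r, (∏ j : Fin n, ∑ i with κ i = κ j, (MvPolynomial.X i : MvPolynomial (Fin n) ℕ))
      = ∏ j : Fin n, (MvPolynomial.X j : MvPolynomial (Fin n) ℕ) + r := by
    have : ∀ j, ∑ i with κ i = κ j, (MvPolynomial.X i : MvPolynomial (Fin n) ℕ) =
        MvPolynomial.X j + ∑ i ∈ (Finset.univ.filter fun i => κ i = κ j).erase j,
          (MvPolynomial.X i : MvPolynomial (Fin n) ℕ) := by
      intro j
      rw [Finset.add_sum_erase]
      simp
    simp_rw [this]
    exact prod_add_ex _ _ _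
  obtain ⟨r, hr⟩ := k
  rw [hr, MvPolynomial.coeff_add, coeff_prod_X]
  simp only [eq_natCast, ne_eq, Nat.cast_eq_zero]
  omega

/-- the linearisation -/
noncomputable def lin {X : Type v} [DecidableEq X] {n : ℕ} (κ : Fin n → X)
    (p : FreeMagma X →₀ F) : FreeMagma (Fin n) →₀ F :=
  (FreeNonUnitalNonAssocAlgebra.lift F (fun x => ∑ j with κ j = x,
    FreeNonUnitalNonAssocAlgebra.of F j) (MonoidAlgebra.ofCoeff p)).coeff

theorem ev_lin {X : Type v} [DecidableEq X] {n : ℕ} (κ : Fin n → X)
    (p : FreeMagma X →₀ F) {B : Type w} [NonUnitalNonAssocRing B] [Module F B]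
    [IsScalarTower F B B] [SMulCommClass F B B] (v : Fin n → B) :
    ev (lin κ p) v = ev p fun x => ∑ j with κ j = x, v j := by
  rw [lin, ← lift_eq]
  have e : (FreeNonUnitalNonAssocAlgebra.lift F v).comp
      (FreeNonUnitalNonAssocAlgebra.lift F (fun x => ∑ j with κ j = x,
        FreeNonUnitalNonAssocAlgebra.of F j)) =
      FreeNonUnitalNonAssocAlgebra.lift F (fun x => ∑ j with κ j = x, v j) := by
    apply FreeNonUnitalNonAssocAlgebra.hom_ext
    intro x
    simp
  have := DFunLike.congr_fun e (MonoidAlgebra.ofCoeff p)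
  rw [NonUnitalAlgHom.comp_apply] at this
  rw [this, lift_eq]

theorem evW_eq_of_cnt {X : Type v} {w w' : FreeMagma X} (h : cntF w = cntF w') (t : X → F) :
    evW (fun a b : F => a * b) t w = evW (fun a b : F => a * b) t w' := by
  rw [evW_comm, evW_comm, h]

theorem MLin_iff (n : ℕ) (w : FreeMagma (Fin n)) : MLin w ↔ cntF w = ones n := by
  constructor
  · intro h
    ext i
    rw [← cnt_eq, h i]; rfl
  · intro h i
    rw [cnt_eq, h]; rfl

/-- a multihomogeneous identity of the table algebra holds in all algebras of `V` -/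
theorem hom_identity [CharZero F] (hB : PartB.{u, w}) {X : Type v} (d : X →₀ ℕ)
    (p : FreeMagma X →₀ F) (hd : ∀ w ∈ p.support, cntF w = d)
    (hP : ∀ v : X → TA F, ev p v = 0)
    (B : Type w) [NonUnitalNonAssocRing B] [Module F B]
    [IsScalarTower F B B] [SMulCommClass F B B] (hV : IsV B) (b : X → B) : ev p b = 0 := by
  classical
  by_cases hp : p.support = ∅
  · rw [ev_def, Finsupp.sum, hp, Finset.sum_empty]
  obtain ⟨w0, hw0⟩ := Finset.nonempty_iff_ne_empty.mpr hp
  obtain ⟨n, κ, hκ⟩ := exists_letters (F := F) w0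
  by_contra hne
  obtain ⟨l, hl⟩ : ∃ l : B →ₗ[F] F, l (ev p b) ≠ 0 := by
    by_contra hcon
    push Not at hcon
    exact hne ((Module.forall_dual_apply_eq_zero_iff F _).mp hcon)
  -- the multilinear part of the linearisation is an identity of B
  have hq : ev ((lin κ p).filter fun w => cntF w = ones n) (fun j => b (κ j)) = 0 := by
    refine hB F (Fin n) ((lin κ p).filter fun w => cntF w = ones n) ?_ (-4) (-4) (-4)
      (by norm_num) (by norm_num) (by norm_num) ?_ B hV _
    · intro w hw
      rw [Finsupp.support_filter, Finset.mem_filter] at hw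
      exact (MLin_iff n w).mpr hw.2
    · intro v
      exact comp_identity (lin κ p) (fun v => by rw [ev_lin, hP]) (ones n) v
  have h1 := Gp_coeff l (lin κ p) (fun j => b (κ j)) (ones n)
  rw [hq, map_zero] at h1
  have h2 : Gp l (lin κ p) (fun j => b (κ j)) = MvPolynomial.C (l (ev p b)) *
      ∏ j : Fin n, ∑ i with κ i = κ j, (MvPolynomial.X i : MvPolynomial (Fin n) F) := by
    apply MvPolynomial.funext
    intro t
    rw [Gp_eval, ev_lin]
    have e1 : (fun x => ∑ j with κ j = x, t j • b (κ j)) =
        fun x => (∑ j with κ j = x, t j) • b x := by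
      funext x
      rw [Finset.sum_smul]
      refine Finset.sum_congr rfl fun j hj => ?_
      rw [(Finset.mem_filter.mp hj).2]
    rw [e1]
    have e2 : ev p (fun x => (∑ j with κ j = x, t j) • b x) =
        (∏ j, ∑ i with κ i = κ j, t i) • ev p b := by
      rw [ev_def, ev_def, Finsupp.sum, Finsupp.sum, Finset.smul_sum]
      refine Finset.sum_congr rfl fun w hw => ?_
      rw [evW_smul, evW_eq_of_cnt ((hd w hw).trans (hd w0 hw0).symm), hκ, smul_comm]
    rw [e2, map_smul, smul_eq_mul]
    simp [mul_comm]
  rw [h2, MvPolynomial.coeff_C_mul] at h1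
  exact (mul_ne_zero hl (coeff_ne n κ)) h1

/-- an identity of the table algebra holds in all algebras of `V` -/
theorem identity [CharZero F] (hB : PartB.{u, w}) {X : Type v}
    (p : FreeMagma X →₀ F) (hP : ∀ v : X → TA F, ev p v = 0)
    (B : Type w) [NonUnitalNonAssocRing B] [Module F B]
    [IsScalarTower F B B] [SMulCommClass F B B] (hV : IsV B) (b : X → B) : ev p b = 0 := by
  classical
  rw [ev_def, Finsupp.sum,
    ← Finset.sum_fiberwise_of_maps_to (s := p.support) (t := p.support.image cntF) (g := cntF)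
      (fun w hw => Finset.mem_image_of_mem _ hw)]
  refine Finset.sum_eq_zero fun d _ => ?_
  have := hom_identity hB d (p.filter fun w => cntF w = d) (fun w hw => by
    rw [Finsupp.support_filter, Finset.mem_filter] at hw
    exact hw.2) (fun v => comp_identity p hP d v) B hV b
  rw [ev_def, Finsupp.sum, Finsupp.support_filter] at this
  rw [← this]
  refine Finset.sum_congr rfl fun w hw => ?_
  rw [Finsupp.filter_apply_pos (fun w => cntF w = d) _ (Finset.mem_filter.mp hw).2]

end pol

/-! ### the ideal generated by the identity `f5` -/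

section ideal

section
variable {A : Type w} [NonUnitalNonAssocRing A]

theorem S4_add (a b c u v : A) : S4 a b c (u + v) = S4 a b c u + S4 a b c v := by
  simp only [S4, mul_add, add_mul]; abel

theorem S4_add3 (a b c u v : A) : S4 a b (u + v) c = S4 a b u c + S4 a b v c := by
  simp only [S4, mul_add, add_mul]; abel

theorem S4_add2 (a b c u v : A) : S4 a (u + v) b c = S4 a u b c + S4 a v b c := by
  simp only [S4, mul_add, add_mul]; abel

theorem P6_add (x y z u v : A) : P6 x y z (u + v) = P6 x y z u + P6 x y z v := by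
  simp only [P6, S4_add, S4_add2]; abel

theorem f6_polar (x y z u v : A) : f6 x y z u v + f6 x y z v u
    = f6 x y z (u + v) (u + v) - f6 x y z u u - f6 x y z v v := by
  simp only [f6, P6_add, mul_add, add_mul]; abel

theorem f6_symm (x y z u v : A) : f6 x y z u v = f6 x y z v u := by
  simp only [f6]; abel

end

variable {F : Type u} [Field F] {A : Type w} [NonUnitalNonAssocRing A] [Module F A]

/-- the span of the values of `f6 x y z w w` -/
def I5 (F : Type u) [Field F] (A : Type w) [NonUnitalNonAssocRing A] [Module F A] :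
    Submodule F A := Submodule.span F {a | ∃ x y z w : A, a = f6 x y z w w}

theorem f6_mem (x y z w : A) : f6 x y z w w ∈ I5 F A := Submodule.subset_span ⟨x, y, z, w, rfl⟩

variable [IsScalarTower F A A] [SMulCommClass F A A]

omit [SMulCommClass F A A] in
theorem I5_mul_right (hA : ∀ x y z w r : A, f6 x y z w w * r = f6 (x * r) y z w w
      + f6 x (y * r) z w w + f6 x y (z * r) w w + f6 x y z (w * r) w + f6 x y z w (w * r))
    (a : A) (ha : a ∈ I5 F A) (r : A) : a * r ∈ I5 F A := by
  induction ha using Submodule.span_induction with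
  | mem a h =>
    obtain ⟨x, y, z, w, rfl⟩ := h
    rw [hA, add_assoc _ (f6 x y z (w * r) w), f6_polar]
    have k : ∀ x y z w : A, f6 x y z w w ∈ I5 F A := f6_mem
    exact Submodule.add_mem _ (Submodule.add_mem _ (Submodule.add_mem _ (k _ _ _ _) (k _ _ _ _))
      (k _ _ _ _)) (Submodule.sub_mem _ (Submodule.sub_mem _ (k _ _ _ _) (k _ _ _ _)) (k _ _ _ _))
  | zero => rw [zero_mul]; exact Submodule.zero_mem _
  | add a b _ _ iha ihb => rw [add_mul]; exact Submodule.add_mem _ iha ihb
  | smul t a _ ih => rw [smul_mul_assoc]; exact Submodule.smul_mem _ t ih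

theorem anti (hM : IsMalcev A) (x y : A) : x * y = -(y * x) := by
  have h := hM.mul_self (x + y)
  rw [add_mul, mul_add, mul_add, hM.mul_self, hM.mul_self, zero_add, add_zero] at h
  exact eq_neg_of_add_eq_zero_left h

end ideal

section main

variable {F : Type u} [Field F] [CharZero F] {X : Type v}

theorem mem_I5_of_cong (hA : PartA.{max u v}) [IsAddTorsionFree (FreeMalcev F X)]
    (a b : FreeNonUnitalNonAssocAlgebra F X) (h : Cong F (VRel F X) a b) :
    QAlg.mk F (MalcevRel F X) a - QAlg.mk F (MalcevRel F X) b ∈ I5 F (FreeMalcev F X) := by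
  have hM : IsMalcev (FreeMalcev F X) := freeMalcev_isMalcev
  have hA1 := (hA (FreeMalcev F X) hM).1
  induction h with
  | rel h =>
    cases h with
    | mul_self a =>
      rw [map_mul, map_zero, hM.mul_self, sub_zero]; exact Submodule.zero_mem _
    | malcev a b c =>
      rw [map_J, map_mul, map_mul, map_J, hM.malcev, sub_self]; exact Submodule.zero_mem _
    | f5 x y z t =>
      rw [map_mul, map_zero, map_P6, sub_zero]
      generalize QAlg.mk F (MalcevRel F X) x = x'
      generalize QAlg.mk F (MalcevRel F X) y = y'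
      generalize QAlg.mk F (MalcevRel F X) z = z'
      generalize QAlg.mk F (MalcevRel F X) t = t'
      have : P6 x' y' z' t' * t' = (2⁻¹ : F) • f6 x' y' z' t' t' := by
        rw [f6, ← two_smul F, smul_smul, inv_mul_cancel₀ two_ne_zero, one_smul]
      rw [this]
      exact Submodule.smul_mem _ _ (f6_mem (F := F) _ _ _ _)
  | smul t h ih => rw [map_smul, map_smul, ← smul_sub]; exact Submodule.smul_mem _ _ ih
  | add_right c h ih => rw [map_add, map_add, add_sub_add_right_eq_sub]; exact ih
  | mul_left c h ih =>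
    rw [map_mul, map_mul, ← mul_sub, anti hM]
    exact Submodule.neg_mem _ (I5_mul_right hA1 _ ih _)
  | mul_right c h ih =>
    rw [map_mul, map_mul, ← sub_mul]
    exact I5_mul_right hA1 _ ih _

theorem mem_I5_of_eq (hA : PartA.{max u v}) [IsAddTorsionFree (FreeMalcev F X)]
    (a b : FreeNonUnitalNonAssocAlgebra F X)
    (h : QAlg.mk F (VRel F X) a = QAlg.mk F (VRel F X) b) :
    QAlg.mk F (MalcevRel F X) a - QAlg.mk F (MalcevRel F X) b ∈ I5 F (FreeMalcev F X) := by
  have h' : Relation.EqvGen (Cong F (VRel F X)) a b := Quot.eqvGen_exact h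
  clear h
  induction h' with
  | rel a b h => exact mem_I5_of_cong hA a b h
  | refl a => rw [sub_self]; exact Submodule.zero_mem _
  | symm a b _ ih => 
    have := Submodule.neg_mem _ ih
    rwa [neg_sub] at this
  | trans a b c h1 h2 ih1 ih2 =>
    have := Submodule.add_mem _ ih1 ih2
    rwa [sub_add_sub_cancel] at this

theorem T7_sub (hA : PartA.{max u v}) (hB : PartB.{u, max u v})
    [IsAddTorsionFree (FreeMalcev F X)] (f : FreeMalcev F X) (hf : f ∈ T7 F X) :
    f ∈ I5 F (FreeMalcev F X) := by
  obtain ⟨p, rfl⟩ := QAlg.mk_surjective F (MalcevRel F X) f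
  have h1 : ∀ v : X → TA F, ev p.coeff v = 0 := T7_ta p hf
  have h2 : ev p.coeff (FreeV.of (F := F) (X := X)) = 0 :=
    identity hB p.coeff h1 (FreeV F X) freeV_isV _
  rw [← lift_eq] at h2
  have h3 : FreeNonUnitalNonAssocAlgebra.lift F (FreeV.of (F := F) (X := X))
      = QAlg.mk F (VRel F X) := by
    apply FreeNonUnitalNonAssocAlgebra.hom_ext
    intro x
    simp [FreeV.of]
  rw [h3, ← map_zero (QAlg.mk F (VRel F X))] at h2
  have := mem_I5_of_eq hA _ _ h2
  rwa [map_zero, sub_zero] at this

end main

theorem main (hA : PartA.{max u v}) (hB : PartB.{u, max u v}) : MainStatement.{u,v} := by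
  intro F _ _ X f g h hf hg hh
  have : IsAddTorsionFree (FreeMalcev F X) := IsAddTorsionFree.of_isTorsionFree F _
  have hM : IsMalcev (FreeMalcev F X) := freeMalcev_isMalcev
  have hA2 := (hA (FreeMalcev F X) hM).2
  have kf := T7_sub hA hB f hf
  have kg := T7_sub hA hB g hg
  have kh := T7_sub hA hB h hh
  clear hf hg hh
  have sq : ∀ (a : FreeMalcev F X), a ∈ I5 F (FreeMalcev F X) →
      a ∈ Submodule.span F {a : FreeMalcev F X | ∃ x y, a = x * y} := by
    intro a ha
    induction ha using Submodule.span_induction with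
    | mem a h =>
      obtain ⟨x, y, z, w, rfl⟩ := h
      exact Submodule.add_mem _ (Submodule.subset_span ⟨_, _, rfl⟩)
        (Submodule.subset_span ⟨_, _, rfl⟩)
    | zero => exact Submodule.zero_mem _
    | add a b _ _ iha ihb => exact Submodule.add_mem _ iha ihb
    | smul t a _ ih => exact Submodule.smul_mem _ t ih
  have Ja1 : ∀ a b c d : FreeMalcev F X, J (a + b) c d = J a c d + J b c d := by
    intro a b c d; simp only [J, mul_add, add_mul]; abel
  have Ja2 : ∀ a b c d : FreeMalcev F X, J c (a + b) d = J c a d + J c b d := by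
    intro a b c d; simp only [J, mul_add, add_mul]; abel
  have Ja3 : ∀ a b c d : FreeMalcev F X, J c d (a + b) = J c d a + J c d b := by
    intro a b c d; simp only [J, mul_add, add_mul]; abel
  have Js1 : ∀ (t : F) (a b c : FreeMalcev F X), J (t • a) b c = t • J a b c := by
    intro t a b c; simp only [J, smul_add, smul_mul_assoc, mul_smul_comm]
  have Js2 : ∀ (t : F) (a b c : FreeMalcev F X), J a (t • b) c = t • J a b c := by
    intro t a b c; simp only [J, smul_add, smul_mul_assoc, mul_smul_comm]
  have Js3 : ∀ (t : F) (a b c : FreeMalcev F X), J a b (t • c) = t • J a b c := by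
    intro t a b c; simp only [J, smul_add, smul_mul_assoc, mul_smul_comm]
  have Jz1 : ∀ a b : FreeMalcev F X, J 0 a b = 0 := by intro a b; simp [J]
  have Jz2 : ∀ a b : FreeMalcev F X, J a 0 b = 0 := by intro a b; simp [J]
  have Jz3 : ∀ a b : FreeMalcev F X, J a b 0 = 0 := by intro a b; simp [J]
  have kg' := sq g kg
  have kh' := sq h kh
  induction kf using Submodule.span_induction with
  | zero => exact Jz1 _ _
  | add a b _ _ iha ihb => rw [Ja1, iha, ihb, add_zero]
  | smul t a _ ih => rw [Js1, ih, smul_zero]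
  | mem a ha =>
    obtain ⟨x, y, z, w, rfl⟩ := ha
    clear kg kh
    induction kg' using Submodule.span_induction with
    | zero => exact Jz2 _ _
    | add a b _ _ iha ihb => rw [Ja2, iha, ihb, add_zero]
    | smul t a _ ih => rw [Js2, ih, smul_zero]
    | mem b hb =>
      obtain ⟨b1, b2, rfl⟩ := hb
      induction kh' using Submodule.span_induction with
      | zero => exact Jz3 _ _
      | add a b _ _ iha ihb => rw [Ja3, iha, ihb, add_zero]
      | smul t a _ ih => rw [Js3, ih, smul_zero]
      | mem c hc =>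
        obtain ⟨c1, c2, rfl⟩ := hc
        exact hA2 _ _ _ _ _ _ _ _

end Pool.Agent.Hhelper82.PartD
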